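import Pool.Agent.Run7.h275.S.I2
import Pool.Agent.H920R2.Sr1

/-!
# Pieces SMR and FLT of project RB (helper275)
-/

set_option autoImplicit false
set_option linter.unusedVariables false

namespace Pool.Agent.Run7.h617.S

open AlgebraicGeometry CategoryTheory CategoryTheory.Limits Pool.Agent.W418.LU2
  Pool.Agent.Run7.h275.RB Pool.Agent.Run7.h275.SC

/-- a scheme which is smooth over a field is regular -/
theorem t_SMR : S_SMR := by
  intro E _ X f hf x
  obtain ⟨R, j, hj, ⟨y, rfl⟩, -⟩ :=
    AlgebraicGeometry.Scheme.exists_affine_mem_range_and_range_subset (X := X) (x := x) (U := ⊤)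
      trivial
  have hsm : Smooth (j ≫ f) := inferInstance
  obtain ⟨φ, hφ⟩ : ∃ φ : CommRingCat.of E ⟶ R, Spec.map φ = j ≫ f :=
    ⟨Spec.preimage (j ≫ f), Spec.map_preimage _⟩
  rw [← hφ, HasRingHomProperty.Spec_iff (P := @Smooth)] at hsm
  let _ : Algebra E R := φ.hom.toAlgebra
  have hA : Algebra.Smooth E R := hsm
  let _ : Algebra R ((Spec R).presheaf.stalk y) := StructureSheaf.stalkAlgebra R y
  have h1 : IsLocalization.AtPrime ((Spec R).presheaf.stalk y) y.asIdeal :=
    StructureSheaf.IsLocalization.to_stalk R y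
  have h2 : IsRegularLocalRing (Localization.AtPrime y.asIdeal) :=
    Pool.Agent.H920R2.regular_of_smooth (k := E) y.asIdeal
  have h3 : IsRegularLocalRing ((Spec R).presheaf.stalk y) :=
    IsRegularLocalRing.of_ringEquiv
      (IsLocalization.algEquiv y.asIdeal.primeCompl (Localization.AtPrime y.asIdeal)
        ((Spec R).presheaf.stalk y)).toRingEquiv
  exact IsRegularLocalRing.of_ringEquiv (asIso (j.stalkMap y)).commRingCatIsoToRingEquiv.symm

theorem flat_of_comp {A B C : Type} [CommRing A] [CommRing B] [CommRing C] (θ : A →+* B)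
    (ψ : B →+* C) (hψ : Function.Bijective ψ) (h : (ψ.comp θ).Flat) : θ.Flat := by
  set e := RingEquiv.ofBijective ψ hψ with he
  have h1 : θ = (e.symm : C →+* B).comp (ψ.comp θ) := by
    ext a
    exact (e.symm_apply_apply (θ a)).symm
  rw [h1]
  exact RingHom.Flat.comp h (RingHom.Flat.of_bijective e.symm.bijective)

/-- flatness over a Dedekind domain -/
theorem t_FLT : S_FLT := by
  intro O F _ _ _ _ hinj 𝓑 Y g ι hι hgen hcov
  refine Flat.of_stalkMap g fun y => ?_
  obtain ⟨B, hB, x, rfl⟩ := hcov y
  have := hι B hB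
  obtain ⟨φ, hφ⟩ : ∃ φ : CommRingCat.of O ⟶ CommRingCat.of B, Spec.map φ = ι B hB ≫ g :=
    ⟨Spec.preimage (ι B hB ≫ g), Spec.map_preimage _⟩
  have hcomp : (B.subtype).comp φ.hom = algebraMap O F := by
    have h1 := hgen B hB
    rw [← hφ] at h1
    unfold gen at h1
    rw [← Spec.map_comp] at h1
    have h2 := Spec.map_injective h1
    have h3 := congrArg CommRingCat.Hom.hom h2
    simpa using h3
  have hflat : Flat (ι B hB ≫ g) := by
    rw [← hφ, Flat.SpecMap_iff]
    let _ : Algebra O B := φ.hom.toAlgebra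
    have hinj' : Function.Injective (algebraMap O B) := by
      intro a b hab
      apply hinj
      have e1 : ∀ c, algebraMap O F c = B.subtype (algebraMap O B c) := fun c =>
        (congrArg (fun h : O →+* F => h c) hcomp).symm
      rw [e1, e1, hab]
    have : FaithfulSMul O B := (faithfulSMul_iff_algebraMap_injective O B).2 hinj'
    have htf : Module.IsTorsionFree O B := inferInstance
    show Module.Flat O B
    infer_instance
  have h1 : ((ι B hB ≫ g).stalkMap x).hom.Flat := Flat.stalkMap (ι B hB ≫ g) x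
  rw [Scheme.Hom.stalkMap_comp] at h1
  exact flat_of_comp (g.stalkMap (ι B hB x)).hom ((ι B hB).stalkMap x).hom
    (ConcreteCategory.bijective_of_isIso ((ι B hB).stalkMap x)) h1

end Pool.Agent.Run7.h617.S
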